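import Pool.Agent.Helper20.EQ.St1
import Pool.Agent.Helper79.LM.M_PL

/-! # Module WRF of project EQ: the square function estimate for the cells -/

set_option autoImplicit false

open MeasureTheory Set Filter Topology
open scoped ENNReal RealInnerProductSpace

namespace Pool.Agent.Helper47.EQ

open Pool.Agent.Helper68.LM (Pl BB Bd Av HL ft fm DQ)
open Pool.Agent.Helper68.EP (elt GapP)
open Pool.Agent.Helper20.RG Pool.Agent.Helper20.EQ

/-- Plancherel for a family of nonnegative multipliers -/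
private theorem core_WRF (g : Pl → ℝ) (hg : BB g) (wt : ℕ → ℝ≥0∞) (N : ℕ → ℕ)
    (I : ℕ → ℤ → ℕ → ℝ≥0∞) (m : ℕ → ℤ → ℕ → Pl → ℝ≥0∞) (B : ℝ≥0∞)
    (hm : ∀ u k j, Measurable (m u k j))
    (hI : ∀ u k j, I u k j ≤ ∫⁻ ξ, m u k j ξ * ‖ft g ξ‖ₑ ^ 2)
    (hB : ∀ ξ : Pl, ξ ≠ 0 → ∑' u, wt u * ∑' k : ℤ, ∑ j ∈ Finset.range (N u), m u k j ξ ≤ B) :
    ∑' u, wt u * ∑' k : ℤ, ∑ j ∈ Finset.range (N u), I u k j ≤ B * ∫⁻ x, ‖g x‖ₑ ^ 2 := by
  obtain ⟨hgm, hgP⟩ := Pool.Agent.Helper79.LM.hPL g hg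
  have hF : Measurable (fun ξ => ‖ft g ξ‖ₑ ^ 2) := hgm.enorm.pow_const 2
  have hj : ∀ u k, Measurable (fun ξ => ∑ j ∈ Finset.range (N u), m u k j ξ * ‖ft g ξ‖ₑ ^ 2) :=
    fun u k => Finset.measurable_fun_sum _ fun j _ => (hm u k j).mul hF
  have hk : ∀ u, Measurable
      (fun ξ => ∑' k : ℤ, ∑ j ∈ Finset.range (N u), m u k j ξ * ‖ft g ξ‖ₑ ^ 2) :=
    fun u => Measurable.tsum (fun k => hj u k)
  calc ∑' u, wt u * ∑' k : ℤ, ∑ j ∈ Finset.range (N u), I u k j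
      ≤ ∑' u, wt u * ∑' k : ℤ, ∑ j ∈ Finset.range (N u), ∫⁻ ξ, m u k j ξ * ‖ft g ξ‖ₑ ^ 2 :=
        ENNReal.tsum_le_tsum fun u => mul_le_mul' le_rfl
          (ENNReal.tsum_le_tsum fun k => Finset.sum_le_sum fun j _ => hI u k j)
    _ = ∑' u, ∫⁻ ξ, wt u * ∑' k : ℤ, ∑ j ∈ Finset.range (N u), m u k j ξ * ‖ft g ξ‖ₑ ^ 2 := by
        refine tsum_congr fun u => ?_
        rw [lintegral_const_mul _ (hk u), lintegral_tsum (fun k => (hj u k).aemeasurable)]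
        congr 1
        refine tsum_congr fun k => ?_
        have hh : ∀ j ∈ Finset.range (N u), Measurable (fun ξ => m u k j ξ * ‖ft g ξ‖ₑ ^ 2) :=
          fun j _ => (hm u k j).mul hF
        rw [lintegral_finsetSum _ hh]
    _ = ∫⁻ ξ, ∑' u, wt u * ∑' k : ℤ, ∑ j ∈ Finset.range (N u), m u k j ξ * ‖ft g ξ‖ₑ ^ 2 := by
        rw [lintegral_tsum (fun u => ((hk u).const_mul _).aemeasurable)]
    _ ≤ ∫⁻ ξ, B * ‖ft g ξ‖ₑ ^ 2 := by
        refine lintegral_mono_ae ?_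
        have h0 : ∀ᵐ ξ : Pl, ξ ≠ 0 := by
          rw [ae_iff]
          simp
        filter_upwards [h0] with ξ hξ
        refine le_trans (le_of_eq ?_) (mul_le_mul' (hB ξ hξ) le_rfl)
        rw [← ENNReal.tsum_mul_right]
        refine tsum_congr fun u => ?_
        rw [mul_assoc, ← ENNReal.tsum_mul_right]
        congr 1
        refine tsum_congr fun k => ?_
        rw [Finset.sum_mul]
    _ = B * ∫⁻ x, ‖g x‖ₑ ^ 2 := by
        rw [lintegral_const_mul _ hF, hgP]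

private theorem meas_WRF (s : ℝ) (V : ℕ) (k : ℤ) :
    Measurable (fun ξ : Pl => Tht s V ((2 : ℝ) ^ k • ξ)) := by
  unfold Tht
  fun_prop

theorem hWRF (hWRJ : StWRJ) (hWRM : StWRM) (hWRN : StWRN) : StWRF := by
  intro φ τ A p hG hA hGap hp
  obtain ⟨C₁, hC₁, h1⟩ := hWRJ
  obtain ⟨C₂, hC₂, h2⟩ := hWRM φ τ A p hG hA hGap hp
  obtain ⟨C₃, hC₃, h3⟩ := hWRN φ τ A p hG hA hGap hp
  refine ⟨C₁ * C₂ * C₃, by positivity, fun s Y la mu g hs hY hYs hla hmu hg => ?_⟩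
  have hmu0 : 0 < mu := by linarith
  set wt : ℕ → ℝ≥0∞ := fun u => if s ≤ u then ENNReal.ofReal ((2 : ℝ) ^ (-(p * u))) else 0 with hwt
  have hL : ∀ F : ℕ → ℝ≥0∞, (fun u : ℕ => if s ≤ u then ENNReal.ofReal ((2 : ℝ) ^ (-(p * u))) * F u else 0) =
      fun u => wt u * F u := by
    intro F
    funext u
    rw [hwt]
    by_cases h : s ≤ u <;> simp [h]
  rw [hL (fun u => ∑' k : ℤ, ∑ j ∈ Finset.range (2 ^ u), ∫⁻ x, MC (sl τ u j) la mu
          (Wt τ u Y (sl τ u j) + u + 1) k g x ^ 2)]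
  refine core_WRF g hg wt (fun u => 2 ^ u) _ (fun u k j ξ => ENNReal.ofReal (C₁ * mu *
    Tht (sl τ u j) (Wt τ u Y (sl τ u j) + u + 1) ((2 : ℝ) ^ k • ξ))) _ ?_ ?_ ?_
  · intro u k j
    exact ((meas_WRF _ _ _).const_mul _).ennreal_ofReal
  · intro u k j
    exact h1 (sl τ u j) la mu _ k g (hG.1 _) hla hmu hg
  · intro ξ hξ
    have hC1 : 0 ≤ C₁ * mu := by positivity
    have e1 : ∀ u : ℕ, wt u * ∑' k : ℤ, ∑ j ∈ Finset.range (2 ^ u), ENNReal.ofReal (C₁ * mu *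
        Tht (sl τ u j) (Wt τ u Y (sl τ u j) + u + 1) ((2 : ℝ) ^ k • ξ)) ≤
        ENNReal.ofReal (C₁ * mu * C₂) * (if s ≤ u then ENNReal.ofReal ((2 : ℝ) ^ (-(p * u)) *
          ((2 : ℝ) ^ u + (u + 2) * Y +
            ∑ i ∈ Finset.Icc 1 (Wt τ u Y (th ξ) + 1), (nn τ u (th ξ) i : ℝ))) else 0) := by
      intro u
      by_cases hu : s ≤ u
      · have h4 := h2 u (u + 1) Y (fun j => Wt τ u Y (sl τ u j) + u + 1) ξ (hs.trans hu) hY
          (fun j _ => le_of_eq (by ring)) hξ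
        have e2 : ∑' k : ℤ, ∑ j ∈ Finset.range (2 ^ u), ENNReal.ofReal (C₁ * mu *
            Tht (sl τ u j) (Wt τ u Y (sl τ u j) + u + 1) ((2 : ℝ) ^ k • ξ)) =
            ENNReal.ofReal (C₁ * mu) * ∑' k : ℤ, ∑ j ∈ Finset.range (2 ^ u), ENNReal.ofReal
            (Tht (sl τ u j) (Wt τ u Y (sl τ u j) + u + 1) ((2 : ℝ) ^ k • ξ)) := by
          rw [← ENNReal.tsum_mul_left]
          refine tsum_congr fun k => ?_
          rw [Finset.mul_sum]
          refine Finset.sum_congr rfl fun j _ => ?_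
          rw [ENNReal.ofReal_mul hC1]
        rw [e2]
        refine (mul_le_mul' le_rfl (mul_le_mul' le_rfl h4)).trans (le_of_eq ?_)
        simp only [hwt, if_pos hu]
        have e3 : (((u + 1 : ℕ) : ℝ) + 1) = (u : ℝ) + 2 := by push_cast; ring
        rw [e3]
        rw [← ENNReal.ofReal_mul hC1, ← ENNReal.ofReal_mul (by positivity),
          ← ENNReal.ofReal_mul (by positivity)]
        congr 1
        ring
      · simp [hwt, hu]
    refine (ENNReal.tsum_le_tsum e1).trans ?_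
    rw [ENNReal.tsum_mul_left]
    refine (mul_le_mul' le_rfl (h3 s Y (th ξ) hs hY hYs)).trans (le_of_eq ?_)
    rw [← ENNReal.ofReal_mul (by positivity)]
    congr 1
    ring

end Pool.Agent.Helper47.EQ
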